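import Mathlib

namespace Pool.Agent.Results.MP_261efc_co.NoRankOne

open Matrix MeasureTheory

/-- The adjacency matrix of the path `P_n` (over the complex numbers). -/
def A (n : ℕ) : Matrix (Fin n) (Fin n) ℂ :=
  fun a b => if (a : ℕ) + 1 = b ∨ (b : ℕ) + 1 = a then 1 else 0

/-- The continuous-time quantum walk `U(t) = exp(i t A)`. -/
noncomputable def U (n : ℕ) (t : ℝ) : Matrix (Fin n) (Fin n) ℂ :=
  NormedSpace.exp (((t : ℂ) * Complex.I) • A n)

/-- The mixing matrix `M(t)`, with entries `|U(t)_{ab}|^2`. -/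
noncomputable def M (n : ℕ) (t : ℝ) : Matrix (Fin n) (Fin n) ℝ :=
  fun a b => ‖U n t a b‖ ^ 2

/-! ### Trigonometric sums -/

/-- `π k a / N` -/
noncomputable def ang (N : ℕ) (k : ℤ) (a : ℕ) : ℝ := Real.pi * k * a / N

lemma cos_sum_tel (x : ℝ) (m : ℕ) :
    2 * Real.sin (x / 2) * ∑ a ∈ Finset.range m, Real.cos (x * ((a : ℝ) + 1)) =
      Real.sin (x * ((m : ℝ) + 1 / 2)) - Real.sin (x / 2) := by
  induction m with
  | zero => simp; ring_nf
  | succ m ih =>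
    rw [Finset.sum_range_succ, mul_add, ih]
    have h : 2 * Real.sin (x / 2) * Real.cos (x * ((m : ℝ) + 1)) =
        Real.sin (x * ((m : ℝ) + 1 + 1 / 2)) - Real.sin (x * ((m : ℝ) + 1 / 2)) := by
      have e1 : x * ((m : ℝ) + 1 + 1 / 2) = x * ((m : ℝ) + 1) + x / 2 := by ring
      have e2 : x * ((m : ℝ) + 1 / 2) = x * ((m : ℝ) + 1) - x / 2 := by ring
      rw [e1, e2, Real.sin_add, Real.sin_sub]; ring
    rw [h]; push_cast; ring

lemma sin_half_ne {N : ℕ} (hN : 1 ≤ N) (k : ℤ) (hk : ¬ (2 * (N : ℤ)) ∣ k) :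
    Real.sin (Real.pi * k / N / 2) ≠ 0 := by
  intro h
  rw [Real.sin_eq_zero_iff] at h
  obtain ⟨j, hj⟩ := h
  apply hk
  refine ⟨j, ?_⟩
  have hN0 : (N : ℝ) ≠ 0 := by positivity
  have hp := Real.pi_ne_zero
  field_simp at hj
  have h2 : j * (N : ℤ) * 2 = k := by exact_mod_cast hj
  linarith

/-- The sum `∑_{a=1}^{N-1} cos (π k a / N)`. -/
lemma D_sum {N : ℕ} (hN : 1 ≤ N) (k : ℤ) :
    ∑ a ∈ Finset.range (N - 1), Real.cos (Real.pi * k / N * ((a : ℝ) + 1)) =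
      (if (2 * (N : ℤ)) ∣ k then (N : ℝ) else 0) - (1 + (-1 : ℝ) ^ k) / 2 := by
  have hN0 : (N : ℝ) ≠ 0 := by positivity
  split_ifs with h
  · obtain ⟨j, rfl⟩ := h
    have : ∀ a : ℕ, Real.cos (Real.pi * ((2 * (N : ℤ) * j : ℤ) : ℝ) / N * ((a : ℝ) + 1)) = 1 := by
      intro a
      have : Real.pi * ((2 * (N : ℤ) * j : ℤ) : ℝ) / N * ((a : ℝ) + 1) =
          ((j * (a + 1) : ℤ) : ℝ) * (2 * Real.pi) := by
        push_cast; field_simp
      rw [this]; exact Real.cos_int_mul_two_pi _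
    simp only [this, Finset.sum_const, Finset.card_range, nsmul_eq_mul, mul_one]
    have e : (-1 : ℝ) ^ (2 * (N : ℤ) * j) = 1 := by
      rw [mul_assoc, _root_.zpow_mul]; simp
    rw [e, Nat.cast_sub hN]; push_cast; ring
  · have hs := sin_half_ne hN k h
    have ht := cos_sum_tel (Real.pi * k / N) (N - 1)
    have e1 : Real.pi * k / N * (((N - 1 : ℕ) : ℝ) + 1 / 2) = Real.pi * k - Real.pi * k / N / 2 := by
      rw [Nat.cast_sub hN]; push_cast; field_simp; ring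
    have e2 : Real.sin (Real.pi * k - Real.pi * k / N / 2) =
        - (-1 : ℝ) ^ k * Real.sin (Real.pi * k / N / 2) := by
      rw [Real.sin_sub]
      have s0 : Real.sin (Real.pi * k) = 0 := by rw [mul_comm]; exact Real.sin_int_mul_pi k
      have c0 : Real.cos (Real.pi * k) = (-1) ^ k := by rw [mul_comm]; exact Real.cos_int_mul_pi k
      rw [s0, c0]; ring
    rw [e1, e2] at ht
    have : 2 * Real.sin (Real.pi * k / N / 2) *
        (∑ a ∈ Finset.range (N - 1), Real.cos (Real.pi * k / N * ((a : ℝ) + 1))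
          - (0 - (1 + (-1 : ℝ) ^ k) / 2)) = 0 := by
      rw [mul_sub, ht]; ring
    rcases mul_eq_zero.mp this with h1 | h1
    · exact absurd h1 (mul_ne_zero two_ne_zero hs)
    · linarith

/-- `sin (π a r / N)` with `a = i+1`, `r = j+1`, `N = n+1`. -/
noncomputable def sn (n : ℕ) (i j : ℕ) : ℝ := Real.sin (Real.pi * ((i : ℝ) + 1) * ((j : ℝ) + 1) / ((n : ℝ) + 1))

lemma sn_symm (n i j : ℕ) : sn n i j = sn n j i := by unfold sn; ring_nf

/-- `cos (π d a / N)` with `a = i+1`. -/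
noncomputable def cs (n : ℕ) (d : ℤ) (i : ℕ) : ℝ := Real.cos (Real.pi * d / ((n : ℝ) + 1) * ((i : ℝ) + 1))

lemma cs_sum (n : ℕ) (k : ℤ) : ∑ i : Fin n, cs n k i =
    (if (2 * ((n : ℤ) + 1)) ∣ k then ((n : ℝ) + 1) else 0) - (1 + (-1 : ℝ) ^ k) / 2 := by
  have h := D_sum (N := n + 1) (by omega) k
  rw [Fin.sum_univ_eq_sum_range (fun i => cs n k i) n]
  unfold cs
  push_cast at h
  simpa using h

lemma neg_one_zpow_congr {k l : ℤ} (h : (2 : ℤ) ∣ k - l) : (-1 : ℝ) ^ k = (-1) ^ l := by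
  obtain ⟨m, hm⟩ := h
  have : k = l + 2 * m := by omega
  rw [this, zpow_add₀ (by norm_num), _root_.zpow_mul]; simp

/-- The triple sum `∑ cos (π d a/N) sin (π r a/N) sin (π s a/N)`. -/
lemma triple (n : ℕ) (d : ℤ) (r s : Fin n) : ∑ i : Fin n, cs n d i * sn n i r * sn n i s =
    (((n : ℝ) + 1) / 4) * ((if (2 * ((n : ℤ) + 1)) ∣ d + ((r : ℤ) - s) then (1 : ℝ) else 0) +
      (if (2 * ((n : ℤ) + 1)) ∣ d - ((r : ℤ) - s) then (1 : ℝ) else 0) -
      (if (2 * ((n : ℤ) + 1)) ∣ d + ((r : ℤ) + s + 2) then (1 : ℝ) else 0) -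
      (if (2 * ((n : ℤ) + 1)) ∣ d - ((r : ℤ) + s + 2) then (1 : ℝ) else 0)) := by
  have h1 : ∀ i : Fin n, cs n d i * sn n i r * sn n i s =
      (1 / 4) * (cs n (d + ((r : ℤ) - s)) i + cs n (d - ((r : ℤ) - s)) i -
        cs n (d + ((r : ℤ) + s + 2)) i - cs n (d - ((r : ℤ) + s + 2)) i) := by
    intro i
    unfold cs sn
    set x : ℝ := Real.pi * d / ((n : ℝ) + 1) * ((i : ℝ) + 1) with hx
    set y : ℝ := Real.pi * ((i : ℝ) + 1) * ((r : ℝ) + 1) / ((n : ℝ) + 1) with hy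
    set z : ℝ := Real.pi * ((i : ℝ) + 1) * ((s : ℝ) + 1) / ((n : ℝ) + 1) with hz
    have e1 : Real.pi * ((d + ((r : ℤ) - s) : ℤ) : ℝ) / ((n : ℝ) + 1) * ((i : ℝ) + 1) = x + (y - z) := by
      rw [hx, hy, hz]; push_cast; ring
    have e2 : Real.pi * ((d - ((r : ℤ) - s) : ℤ) : ℝ) / ((n : ℝ) + 1) * ((i : ℝ) + 1) = x - (y - z) := by
      rw [hx, hy, hz]; push_cast; ring
    have e3 : Real.pi * ((d + ((r : ℤ) + s + 2) : ℤ) : ℝ) / ((n : ℝ) + 1) * ((i : ℝ) + 1) = x + (y + z) := by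
      rw [hx, hy, hz]; push_cast; ring
    have e4 : Real.pi * ((d - ((r : ℤ) + s + 2) : ℤ) : ℝ) / ((n : ℝ) + 1) * ((i : ℝ) + 1) = x - (y + z) := by
      rw [hx, hy, hz]; push_cast; ring
    rw [e1, e2, e3, e4]
    simp only [Real.cos_add, Real.cos_sub, Real.sin_add, Real.sin_sub]
    ring
  simp_rw [h1]
  rw [← Finset.mul_sum, Finset.sum_sub_distrib, Finset.sum_sub_distrib, Finset.sum_add_distrib,
    cs_sum, cs_sum, cs_sum, cs_sum]
  have p2 : (-1 : ℝ) ^ (d - ((r : ℤ) - s)) = (-1) ^ (d + ((r : ℤ) - s)) :=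
    neg_one_zpow_congr ⟨-((r : ℤ) - s), by ring⟩
  have p3 : (-1 : ℝ) ^ (d + ((r : ℤ) + s + 2)) = (-1) ^ (d + ((r : ℤ) - s)) :=
    neg_one_zpow_congr ⟨(s : ℤ) + 1, by ring⟩
  have p4 : (-1 : ℝ) ^ (d - ((r : ℤ) + s + 2)) = (-1) ^ (d + ((r : ℤ) - s)) :=
    neg_one_zpow_congr ⟨-((r : ℤ)) - 1, by ring⟩
  rw [p2, p3, p4]
  split_ifs <;> ring

/-! ### Diagonalisation of the path -/

noncomputable def Sm (n : ℕ) : Matrix (Fin n) (Fin n) ℂ := fun a r => ((sn n a r : ℝ) : ℂ)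

/-- eigenvalue `2 cos (π r / (n+1))`, for `r : ℤ` -/
noncomputable def th (n : ℕ) (r : ℤ) : ℝ := 2 * Real.cos (Real.pi * r / ((n : ℝ) + 1))

lemma Sm_transpose (n : ℕ) : (Sm n)ᵀ = Sm n := by
  ext a b; simp [Sm, sn_symm n a b, Matrix.transpose_apply]

lemma orth (n : ℕ) (r s : Fin n) : ∑ i : Fin n, sn n i r * sn n i s =
    if r = s then ((n : ℝ) + 1) / 2 else 0 := by
  have h := triple n 0 r s
  have h0 : ∀ i : Fin n, cs n 0 i = 1 := by intro i; simp [cs]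
  simp only [h0, one_mul] at h
  rw [h]
  have hr := r.2
  have hs := s.2
  have c3 : ¬ (2 * ((n : ℤ) + 1)) ∣ 0 + ((r : ℤ) + s + 2) := by
    rintro ⟨j, hj⟩
    have hj0 : 0 < j := by
      by_contra hc
      have : j ≤ 0 := by omega
      nlinarith
    have hj1 : j < 1 := by
      by_contra hc
      have : 1 ≤ j := by omega
      nlinarith
    omega
  have c4 : ¬ (2 * ((n : ℤ) + 1)) ∣ 0 - ((r : ℤ) + s + 2) := by
    intro hd
    apply c3
    have h5 := dvd_neg.mpr hd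
    rw [show -(0 - ((r : ℤ) + s + 2)) = 0 + ((r : ℤ) + s + 2) by ring] at h5
    exact h5
  rw [if_neg c3, if_neg c4]
  by_cases hrs : r = s
  · subst hrs; simp; ring
  · have c1 : ¬ (2 * ((n : ℤ) + 1)) ∣ 0 + ((r : ℤ) - s) := by
      rintro ⟨j, hj⟩
      have hne : (r : ℤ) - s ≠ 0 := by
        intro h; apply hrs; ext; omega
      have hj0 : j ≠ 0 := by rintro rfl; apply hne; simpa using hj
      rcases lt_or_gt_of_ne hj0 with h | h
      · have : j ≤ -1 := by omega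
        nlinarith
      · have : 1 ≤ j := by omega
        nlinarith
    have c2 : ¬ (2 * ((n : ℤ) + 1)) ∣ 0 - ((r : ℤ) - s) := by
      intro hd
      apply c1
      have h5 := dvd_neg.mpr hd
      rw [show -(0 - ((r : ℤ) - s)) = 0 + ((r : ℤ) - s) by ring] at h5
      exact h5
    rw [if_neg c1, if_neg c2, if_neg hrs]; ring

lemma Sm_sq (n : ℕ) : Sm n * Sm n = (((n : ℂ) + 1) / 2) • (1 : Matrix (Fin n) (Fin n) ℂ) := by
  ext a b
  rw [Matrix.mul_apply, Matrix.smul_apply, Matrix.one_apply]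
  have h := orth n a b
  have e : ∀ i : Fin n, Sm n a i * Sm n i b = ((sn n i a * sn n i b : ℝ) : ℂ) := by
    intro i; simp only [Sm]; rw [sn_symm n a i]; push_cast; ring
  simp_rw [e]
  rw [← Complex.ofReal_sum, h]
  split_ifs <;> simp

lemma A_mul_Sm (n : ℕ) : A n * Sm n = Sm n * Matrix.diagonal (fun r : Fin n => ((th n ((r : ℤ) + 1) : ℝ) : ℂ)) := by
  ext a r
  rw [Matrix.mul_apply, Matrix.mul_diagonal]
  have hN : ((n : ℝ) + 1) ≠ 0 := by positivity
  -- the sine function extended to all integers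
  set g : ℤ → ℝ := fun k => Real.sin (Real.pi * (k : ℝ) * ((r : ℝ) + 1) / ((n : ℝ) + 1)) with hg
  have hgn : ∀ b : Fin n, Sm n b r = ((g ((b : ℤ) + 1) : ℝ) : ℂ) := by
    intro b; simp only [Sm, sn, hg]; push_cast; rfl
  have g0 : g 0 = 0 := by simp [hg]
  have gN : g ((n : ℤ) + 1) = 0 := by
    simp only [hg]
    have : Real.pi * (((n : ℤ) + 1 : ℤ) : ℝ) * ((r : ℝ) + 1) / ((n : ℝ) + 1) = ((r : ℕ) + 1 : ℕ) * Real.pi := by
      push_cast; field_simp
    rw [this]; exact Real.sin_nat_mul_pi _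
  have e1 : ∑ b : Fin n, A n a b * Sm n b r = ((g ((a : ℤ) + 2) + g (a : ℤ) : ℝ) : ℂ) := by
    have step : ∀ b : Fin n, A n a b * Sm n b r =
        (if (b : ℕ) = a + 1 then ((g ((b : ℤ) + 1) : ℝ) : ℂ) else 0) +
        (if (b : ℕ) + 1 = a then ((g ((b : ℤ) + 1) : ℝ) : ℂ) else 0) := by
      intro b
      rw [hgn]
      simp only [A]
      by_cases h1 : (a : ℕ) + 1 = b
      · have h2 : ¬ (b : ℕ) + 1 = a := by omega
        rw [if_pos (Or.inl h1), if_pos h1.symm, if_neg h2]; simp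
      · by_cases h2 : (b : ℕ) + 1 = a
        · have h3 : ¬ (b : ℕ) = a + 1 := by omega
          simp [h2, h3]
        · have h3 : ¬ (b : ℕ) = a + 1 := by omega
          simp [h1, h2, h3]
    simp_rw [step]
    rw [Finset.sum_add_distrib]
    have s1 : ∑ b : Fin n, (if (b : ℕ) = a + 1 then ((g ((b : ℤ) + 1) : ℝ) : ℂ) else 0) =
        ((g ((a : ℤ) + 2) : ℝ) : ℂ) := by
      rw [Fin.sum_univ_eq_sum_range (fun b => if b = (a : ℕ) + 1 then ((g ((b : ℤ) + 1) : ℝ) : ℂ) else 0) n,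
        Finset.sum_ite_eq']
      by_cases h : (a : ℕ) + 1 < n
      · rw [if_pos (Finset.mem_range.mpr h)]
        have : (((a : ℕ) + 1 : ℕ) : ℤ) + 1 = (a : ℤ) + 2 := by push_cast; ring
        rw [this]
      · rw [if_neg (by simpa using h)]
        have : (a : ℤ) + 2 = (n : ℤ) + 1 := by have := a.2; omega
        rw [this, gN]; simp
    have s2 : ∑ b : Fin n, (if (b : ℕ) + 1 = a then ((g ((b : ℤ) + 1) : ℝ) : ℂ) else 0) =
        ((g (a : ℤ) : ℝ) : ℂ) := by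
      rcases Nat.eq_zero_or_pos (a : ℕ) with h | h
      · rw [h]
        rw [Finset.sum_eq_zero (fun b _ => if_neg (by omega))]
        simp [g0]
      · have : ∀ b : Fin n, (if (b : ℕ) + 1 = a then ((g ((b : ℤ) + 1) : ℝ) : ℂ) else 0) =
            (if (b : ℕ) = a - 1 then ((g ((b : ℤ) + 1) : ℝ) : ℂ) else 0) := by
          intro b; by_cases hb : (b : ℕ) + 1 = a
          · rw [if_pos hb, if_pos (by omega)]
          · rw [if_neg hb, if_neg (by omega)]
        simp_rw [this]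
        rw [Fin.sum_univ_eq_sum_range (fun b => if b = (a : ℕ) - 1 then ((g ((b : ℤ) + 1) : ℝ) : ℂ) else 0) n,
          Finset.sum_ite_eq', if_pos (Finset.mem_range.mpr (by have := a.2; omega))]
        congr 2; push_cast [Nat.cast_sub h]; ring
    rw [s1, s2]; push_cast; ring
  rw [e1, hgn]
  rw [← Complex.ofReal_mul]
  congr 1
  simp only [hg, th]
  have f1 : Real.pi * (((a : ℤ) + 2 : ℤ) : ℝ) * ((r : ℝ) + 1) / ((n : ℝ) + 1) =
      Real.pi * (((a : ℤ) + 1 : ℤ) : ℝ) * ((r : ℝ) + 1) / ((n : ℝ) + 1) +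
      Real.pi * (((r : ℤ) + 1 : ℤ) : ℝ) / ((n : ℝ) + 1) := by push_cast; ring
  have f2 : Real.pi * ((a : ℤ) : ℝ) * ((r : ℝ) + 1) / ((n : ℝ) + 1) =
      Real.pi * (((a : ℤ) + 1 : ℤ) : ℝ) * ((r : ℝ) + 1) / ((n : ℝ) + 1) -
      Real.pi * (((r : ℤ) + 1 : ℤ) : ℝ) / ((n : ℝ) + 1) := by push_cast; ring
  rw [f1, f2, Real.sin_add, Real.sin_sub]; ring

lemma Sm_isUnit (n : ℕ) : IsUnit (Sm n) := by
  have hc : (((n : ℂ) + 1) / 2) ≠ 0 := by
    have : ((n : ℂ) + 1) ≠ 0 := by exact_mod_cast Nat.succ_ne_zero n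
    exact div_ne_zero this two_ne_zero
  have h := Sm_sq n
  have h1 : Sm n * ((((n : ℂ) + 1) / 2)⁻¹ • Sm n) = 1 := by
    rw [Matrix.mul_smul, h, smul_smul, inv_mul_cancel₀ hc, one_smul]
  exact IsUnit.of_mul_eq_one _ h1

lemma Sm_inv (n : ℕ) : (Sm n)⁻¹ = (((n : ℂ) + 1) / 2)⁻¹ • Sm n := by
  have hc : (((n : ℂ) + 1) / 2) ≠ 0 := by
    have : ((n : ℂ) + 1) ≠ 0 := by exact_mod_cast Nat.succ_ne_zero n
    exact div_ne_zero this two_ne_zero
  apply Matrix.inv_eq_right_inv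
  rw [Matrix.mul_smul, Sm_sq, smul_smul, inv_mul_cancel₀ hc, one_smul]

/-- `e^{i t θ_r}` -/
noncomputable def ev (n : ℕ) (t : ℝ) (r : ℤ) : ℂ := Complex.exp ((t : ℂ) * Complex.I * ((th n r : ℝ) : ℂ))

lemma U_eq (n : ℕ) (t : ℝ) : U n t = (((n : ℂ) + 1) / 2)⁻¹ •
    (Sm n * Matrix.diagonal (fun r : Fin n => ev n t ((r : ℤ) + 1)) * Sm n) := by
  have hu := Sm_isUnit n
  have hdet : IsUnit (Sm n).det := (Matrix.isUnit_iff_isUnit_det _).mp hu
  have hA : A n = Sm n * Matrix.diagonal (fun r : Fin n => ((th n ((r : ℤ) + 1) : ℝ) : ℂ)) * (Sm n)⁻¹ := by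
    rw [← A_mul_Sm, Matrix.mul_nonsing_inv_cancel_right _ _ hdet]
  have hA2 : ((t : ℂ) * Complex.I) • A n = Sm n *
      Matrix.diagonal (fun r : Fin n => (t : ℂ) * Complex.I * ((th n ((r : ℤ) + 1) : ℝ) : ℂ)) * (Sm n)⁻¹ := by
    rw [hA, ← Matrix.smul_mul, ← Matrix.mul_smul, ← Matrix.diagonal_smul]
    rfl
  unfold U
  have hd : NormedSpace.exp (fun r : Fin n => (t : ℂ) * Complex.I * ((th n ((r : ℤ) + 1) : ℝ) : ℂ)) =
      fun r : Fin n => ev n t ((r : ℤ) + 1) := by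
    funext r
    rw [Pi.exp_def]
    simp only [ev]
    rw [← Complex.exp_eq_exp_ℂ]
  rw [hA2, Matrix.exp_conj _ _ hu, Matrix.exp_diagonal, Sm_inv, Matrix.mul_smul, hd]

lemma U_apply (n : ℕ) (t : ℝ) (a b : Fin n) : U n t a b = (((n : ℂ) + 1) / 2)⁻¹ *
    ∑ r : Fin n, Sm n a r * ev n t ((r : ℤ) + 1) * Sm n r b := by
  rw [U_eq, Matrix.smul_apply, smul_eq_mul, Matrix.mul_apply]
  congr 1
  apply Finset.sum_congr rfl
  intro r _
  rw [Matrix.mul_diagonal]

lemma conj_ev (n : ℕ) (t : ℝ) (r : ℤ) : (starRingEnd ℂ) (ev n t r) = ev n (-t) r := by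
  unfold ev
  rw [← Complex.exp_conj]
  congr 1
  simp

lemma conj_U (n : ℕ) (t : ℝ) (a b : Fin n) : (starRingEnd ℂ) (U n t a b) = U n (-t) a b := by
  rw [U_apply, U_apply]
  simp only [map_mul, map_inv₀, map_div₀, map_add, map_natCast, map_one, map_sum, conj_ev, Sm,
    Complex.conj_ofReal, Complex.conj_ofNat]

lemma M_eq (n : ℕ) (t : ℝ) (a b : Fin n) : ((M n t a b : ℝ) : ℂ) = U n t a b * U n (-t) a b := by
  rw [← conj_U, M, Complex.mul_conj']
  push_cast; rfl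

lemma ev_neg (n : ℕ) (t : ℝ) (r : ℤ) : ev n t r * ev n (-t) r = 1 := by
  unfold ev
  rw [← Complex.exp_add]
  simp

lemma U_mul_U_neg (n : ℕ) (t : ℝ) : U n t * U n (-t) = 1 := by
  have hc : (((n : ℂ) + 1) / 2) ≠ 0 := by
    have : ((n : ℂ) + 1) ≠ 0 := by exact_mod_cast Nat.succ_ne_zero n
    exact div_ne_zero this two_ne_zero
  rw [U_eq, U_eq, Matrix.smul_mul, Matrix.mul_smul, smul_smul]
  have : Sm n * Matrix.diagonal (fun r : Fin n => ev n t ((r : ℤ) + 1)) * Sm n *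
      (Sm n * Matrix.diagonal (fun r : Fin n => ev n (-t) ((r : ℤ) + 1)) * Sm n) =
      (((n : ℂ) + 1) / 2) • ((((n : ℂ) + 1) / 2) • (1 : Matrix (Fin n) (Fin n) ℂ)) := by
    calc _ = Sm n * Matrix.diagonal (fun r : Fin n => ev n t ((r : ℤ) + 1)) * (Sm n * Sm n) *
          Matrix.diagonal (fun r : Fin n => ev n (-t) ((r : ℤ) + 1)) * Sm n := by
          simp only [Matrix.mul_assoc]
      _ = _ := by
          rw [Sm_sq, Matrix.mul_smul, Matrix.mul_one, Matrix.smul_mul, Matrix.smul_mul,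
            Matrix.mul_assoc (Sm n), Matrix.diagonal_mul_diagonal]
          simp only [ev_neg]
          rw [show (Matrix.diagonal fun _ : Fin n => (1 : ℂ)) = 1 from Matrix.diagonal_one,
            Matrix.mul_one, Sm_sq]
  rw [this, smul_smul, smul_smul]
  have : (((n : ℂ) + 1) / 2)⁻¹ * (((n : ℂ) + 1) / 2)⁻¹ * (((n : ℂ) + 1) / 2) * (((n : ℂ) + 1) / 2) = 1 := by
    field_simp
  rw [this, one_smul]

lemma U_symm (n : ℕ) (t : ℝ) (a b : Fin n) : U n t a b = U n t b a := by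
  rw [U_apply, U_apply]
  congr 1
  apply Finset.sum_congr rfl
  intro r _
  simp only [Sm]
  rw [sn_symm n a r, sn_symm n r b]; ring

lemma M_symm (n : ℕ) (t : ℝ) (a b : Fin n) : M n t a b = M n t b a := by
  unfold M; rw [U_symm]

lemma M_row (n : ℕ) (t : ℝ) (a : Fin n) : ∑ b, M n t a b = 1 := by
  have h : (((∑ b, M n t a b : ℝ)) : ℂ) = 1 := by
    push_cast
    simp_rw [M_eq]
    have h1 := congrFun (congrFun (U_mul_U_neg n t) a) a
    rw [Matrix.mul_apply, Matrix.one_apply_eq] at h1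
    rw [← h1]
    apply Finset.sum_congr rfl
    intro b _
    rw [U_symm n (-t) b a]
  exact_mod_cast h

lemma M_nonneg (n : ℕ) (t : ℝ) (a b : Fin n) : 0 ≤ M n t a b := by unfold M; positivity

lemma M_le_one (n : ℕ) (t : ℝ) (a b : Fin n) : M n t a b ≤ 1 := by
  rw [← M_row n t a]
  exact Finset.single_le_sum (fun i _ => M_nonneg n t a i) (Finset.mem_univ b)

lemma ev_continuous (n : ℕ) (r : ℤ) : Continuous fun t : ℝ => ev n t r := by
  unfold ev; fun_prop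

lemma M_continuous (n : ℕ) (a b : Fin n) : Continuous fun t : ℝ => M n t a b := by
  have h : Continuous fun t : ℝ => U n t a b := by
    simp_rw [U_apply]
    apply Continuous.mul continuous_const
    apply continuous_finsetSum
    intro r _
    exact (continuous_const.mul (ev_continuous n _)).mul continuous_const
  unfold M
  exact (h.norm).pow 2

/-! ### The key identity -/

lemma dvd0 {N x : ℤ} (h1 : -(2 * N) < x) (h2 : x < 2 * N) : (2 * N ∣ x) ↔ x = 0 := by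
  constructor
  · intro h
    exact Int.eq_zero_of_abs_lt_dvd h (abs_lt.mpr ⟨h1, h2⟩)
  · rintro rfl; exact dvd_zero _

lemma dvd2 {N x : ℤ} (h1 : 0 < x) (h2 : x < 4 * N) : (2 * N ∣ x) ↔ x = 2 * N := by
  have : (2 * N ∣ x) ↔ (2 * N ∣ x - 2 * N) := by
    constructor
    · intro h; exact dvd_sub h dvd_rfl
    · intro h; have := dvd_add h (dvd_refl (2 * N)); simpa using this
  rw [this, dvd0 (by linarith) (by linarith)]
  constructor <;> intro h <;> linarith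

lemma swap {n : ℕ} (h g : Fin n → ℂ) (S : Fin n → Fin n → ℂ) (E E' : Fin n → ℂ) :
    ∑ a, ∑ b, h a * g b * ((∑ r, S a r * E r * S r b) * (∑ s, S a s * E' s * S s b)) =
    ∑ r, ∑ s, E r * E' s * ((∑ a, h a * S a r * S a s) * (∑ b, g b * S r b * S s b)) := by
  have e1 : ∀ a b, h a * g b * ((∑ r, S a r * E r * S r b) * (∑ s, S a s * E' s * S s b)) =
      ∑ r, ∑ s, E r * E' s * ((h a * S a r * S a s) * (g b * S r b * S s b)) := by
    intro a b
    rw [Finset.sum_mul_sum, Finset.mul_sum]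
    apply Finset.sum_congr rfl; intro r _
    rw [Finset.mul_sum]
    apply Finset.sum_congr rfl; intro s _
    ring
  have e2 : ∀ r s, E r * E' s * ((∑ a, h a * S a r * S a s) * (∑ b, g b * S r b * S s b)) =
      ∑ a, ∑ b, E r * E' s * ((h a * S a r * S a s) * (g b * S r b * S s b)) := by
    intro r s
    rw [Finset.sum_mul_sum, Finset.mul_sum]
    apply Finset.sum_congr rfl; intro a _
    rw [Finset.mul_sum]
  simp_rw [e1, e2]
  calc _ = ∑ a, ∑ r, ∑ b, ∑ s, E r * E' s * ((h a * S a r * S a s) * (g b * S r b * S s b)) := by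
        apply Finset.sum_congr rfl; intro a _; exact Finset.sum_comm
    _ = ∑ r, ∑ a, ∑ b, ∑ s, E r * E' s * ((h a * S a r * S a s) * (g b * S r b * S s b)) :=
        Finset.sum_comm
    _ = ∑ r, ∑ a, ∑ s, ∑ b, E r * E' s * ((h a * S a r * S a s) * (g b * S r b * S s b)) := by
        apply Finset.sum_congr rfl; intro r _
        apply Finset.sum_congr rfl; intro a _; exact Finset.sum_comm
    _ = _ := by
        apply Finset.sum_congr rfl; intro r _; exact Finset.sum_comm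

/-- Indicator as a real number. -/
noncomputable def ind (P : Prop) [Decidable P] : ℝ := if P then 1 else 0

lemma triple_ind (n : ℕ) (d : ℤ) (hd : 0 < d) (hd' : d ≤ n) (r s : Fin n) :
    ∑ i : Fin n, cs n d i * sn n i r * sn n i s =
    (((n : ℝ) + 1) / 4) * ((ind ((s : ℤ) = r + d) + ind ((r : ℤ) = s + d)) -
      (ind ((r : ℤ) + s + 2 + d = 2 * ((n : ℤ) + 1)) + ind ((r : ℤ) + s + 2 = d))) := by
  have hr := r.2
  have hs := s.2
  rw [triple]
  have c1 : (2 * ((n : ℤ) + 1) ∣ d + ((r : ℤ) - s)) ↔ ((s : ℤ) = r + d) := by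
    rw [dvd0 (by omega) (by omega)]; omega
  have c2 : (2 * ((n : ℤ) + 1) ∣ d - ((r : ℤ) - s)) ↔ ((r : ℤ) = s + d) := by
    rw [dvd0 (by omega) (by omega)]; omega
  have c3 : (2 * ((n : ℤ) + 1) ∣ d + ((r : ℤ) + s + 2)) ↔ ((r : ℤ) + s + 2 + d = 2 * ((n : ℤ) + 1)) := by
    rw [dvd2 (by omega) (by omega)]; omega
  have c4 : (2 * ((n : ℤ) + 1) ∣ d - ((r : ℤ) + s + 2)) ↔ ((r : ℤ) + s + 2 = d) := by
    rw [dvd0 (by omega) (by omega)]; omega
  simp only [c1, c2, c3, c4, ind]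
  ring

lemma prod_ind (n u v : ℕ) (hv : 1 ≤ v) (huv : v < u) (hn : u + v ≤ n) (r s : Fin n) :
    ((ind ((s : ℤ) = r + ((u : ℤ) - v)) + ind ((r : ℤ) = s + ((u : ℤ) - v))) -
      (ind ((r : ℤ) + s + 2 + ((u : ℤ) - v) = 2 * ((n : ℤ) + 1)) + ind ((r : ℤ) + s + 2 = (u : ℤ) - v))) *
    ((ind ((s : ℤ) = r + ((u : ℤ) + v)) + ind ((r : ℤ) = s + ((u : ℤ) + v))) -
      (ind ((r : ℤ) + s + 2 + ((u : ℤ) + v) = 2 * ((n : ℤ) + 1)) + ind ((r : ℤ) + s + 2 = (u : ℤ) + v))) =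
    -(ind ((r : ℕ) + 1 = u ∧ (s : ℕ) + 1 = v) + ind ((r : ℕ) + 1 = v ∧ (s : ℕ) + 1 = u) +
      ind ((r : ℕ) + 1 = n + 1 - v ∧ (s : ℕ) + 1 = n + 1 - u) +
      ind ((r : ℕ) + 1 = n + 1 - u ∧ (s : ℕ) + 1 = n + 1 - v)) := by
  have hr := r.2
  have hs := s.2
  have q1 : (ind ((s : ℤ) = r + ((u : ℤ) - v)) + ind ((r : ℤ) = s + ((u : ℤ) - v))) *
      (ind ((s : ℤ) = r + ((u : ℤ) + v)) + ind ((r : ℤ) = s + ((u : ℤ) + v))) = 0 := by
    unfold ind; split_ifs <;> first | (exfalso; omega) | simp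
  have q2 : (ind ((r : ℤ) + s + 2 + ((u : ℤ) - v) = 2 * ((n : ℤ) + 1)) + ind ((r : ℤ) + s + 2 = (u : ℤ) - v)) *
      (ind ((s : ℤ) = r + ((u : ℤ) + v)) + ind ((r : ℤ) = s + ((u : ℤ) + v))) = 0 := by
    unfold ind; split_ifs <;> first | (exfalso; omega) | simp
  have q3 : (ind ((r : ℤ) + s + 2 + ((u : ℤ) - v) = 2 * ((n : ℤ) + 1)) + ind ((r : ℤ) + s + 2 = (u : ℤ) - v)) *
      (ind ((r : ℤ) + s + 2 + ((u : ℤ) + v) = 2 * ((n : ℤ) + 1)) + ind ((r : ℤ) + s + 2 = (u : ℤ) + v)) = 0 := by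
    unfold ind; split_ifs <;> first | (exfalso; omega) | simp
  have q4 : (ind ((s : ℤ) = r + ((u : ℤ) - v)) + ind ((r : ℤ) = s + ((u : ℤ) - v))) *
      (ind ((r : ℤ) + s + 2 + ((u : ℤ) + v) = 2 * ((n : ℤ) + 1)) + ind ((r : ℤ) + s + 2 = (u : ℤ) + v)) =
      ind ((r : ℕ) + 1 = u ∧ (s : ℕ) + 1 = v) + ind ((r : ℕ) + 1 = v ∧ (s : ℕ) + 1 = u) +
      ind ((r : ℕ) + 1 = n + 1 - v ∧ (s : ℕ) + 1 = n + 1 - u) +
      ind ((r : ℕ) + 1 = n + 1 - u ∧ (s : ℕ) + 1 = n + 1 - v) := by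
    unfold ind; split_ifs <;> first | (exfalso; omega) | norm_num
  linear_combination q1 - q2 + q3 - q4

lemma sum_single {n : ℕ} (F : ℤ → ℤ → ℂ) (p q : ℕ) (hp : 1 ≤ p) (hp' : p ≤ n) (hq : 1 ≤ q) (hq' : q ≤ n) :
    ∑ r : Fin n, ∑ s : Fin n, F ((r : ℤ) + 1) ((s : ℤ) + 1) *
      ((ind ((r : ℕ) + 1 = p ∧ (s : ℕ) + 1 = q) : ℝ) : ℂ) = F p q := by
  rw [Finset.sum_eq_single (⟨p - 1, by omega⟩ : Fin n)]
  · rw [Finset.sum_eq_single (⟨q - 1, by omega⟩ : Fin n)]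
    · have e1 : p - 1 + 1 = p := by omega
      have e2 : q - 1 + 1 = q := by omega
      have e3 : ((p - 1 : ℕ) : ℤ) + 1 = p := by omega
      have e4 : ((q - 1 : ℕ) : ℤ) + 1 = q := by omega
      simp only [e1, e2, e3, e4, ind]
      simp
    · intro s _ hs
      have : ¬ (p - 1 + 1 = p ∧ (s : ℕ) + 1 = q) := by
        rintro ⟨_, h⟩; apply hs; ext; simp; omega
      simp only [ind, this]; simp
    · intro h; exact absurd (Finset.mem_univ _) h
  · intro r _ hr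
    apply Finset.sum_eq_zero
    intro s _
    have : ¬ ((r : ℕ) + 1 = p ∧ (s : ℕ) + 1 = q) := by
      rintro ⟨h, _⟩; apply hr; ext; simp; omega
    simp only [ind, this]; simp
  · intro h; exact absurd (Finset.mem_univ _) h

lemma th_refl (n : ℕ) (r : ℤ) : th n ((n : ℤ) + 1 - r) = - th n r := by
  unfold th
  have hN : ((n : ℝ) + 1) ≠ 0 := by positivity
  have : Real.pi * (((n : ℤ) + 1 - r : ℤ) : ℝ) / ((n : ℝ) + 1) = Real.pi - Real.pi * r / ((n : ℝ) + 1) := by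
    push_cast; field_simp
  rw [this, Real.cos_pi_sub]; ring

lemma ev_mul (n : ℕ) (t : ℝ) (p q : ℤ) : ev n t p * ev n (-t) q =
    Complex.exp (((t * (th n p - th n q) : ℝ) : ℂ) * Complex.I) := by
  unfold ev
  rw [← Complex.exp_add]
  congr 1
  push_cast; ring

/-- `∑_{a,b} cos (π d a/N) cos (π s b/N) M(t)_{ab} = - cos ((θ_u - θ_v) t)` with `d = u - v`,
`s = u + v`. -/
theorem key (n u v : ℕ) (hv : 1 ≤ v) (huv : v < u) (hn : u + v ≤ n) (t : ℝ) :
    ∑ a : Fin n, ∑ b : Fin n, cs n ((u : ℤ) - v) a * cs n ((u : ℤ) + v) b * M n t a b =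
      - Real.cos ((th n u - th n v) * t) := by
  have hc : (((n : ℂ) + 1) / 2) ≠ 0 := by
    have : ((n : ℂ) + 1) ≠ 0 := by exact_mod_cast Nat.succ_ne_zero n
    exact div_ne_zero this two_ne_zero
  have hc1 : ((n : ℂ) + 1) ≠ 0 := by exact_mod_cast Nat.succ_ne_zero n
  suffices h : ((∑ a : Fin n, ∑ b : Fin n, cs n ((u : ℤ) - v) a * cs n ((u : ℤ) + v) b * M n t a b : ℝ) : ℂ) =
      ((- Real.cos ((th n u - th n v) * t) : ℝ) : ℂ) by exact_mod_cast h
  have e1 : ∀ a b : Fin n, ((cs n ((u : ℤ) - v) a * cs n ((u : ℤ) + v) b * M n t a b : ℝ) : ℂ) =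
      ((((n : ℂ) + 1) / 2)⁻¹) ^ 2 * ((cs n ((u : ℤ) - v) a : ℂ) * (cs n ((u : ℤ) + v) b : ℂ) *
        ((∑ r : Fin n, Sm n a r * ev n t ((r : ℤ) + 1) * Sm n r b) *
        (∑ s : Fin n, Sm n a s * ev n (-t) ((s : ℤ) + 1) * Sm n s b))) := by
    intro a b
    push_cast
    rw [M_eq, U_apply, U_apply]; ring
  have e2 : ∀ r s : Fin n, (∑ a : Fin n, (cs n ((u : ℤ) - v) a : ℂ) * Sm n a r * Sm n a s) *
      (∑ b : Fin n, (cs n ((u : ℤ) + v) b : ℂ) * Sm n r b * Sm n s b) =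
      ((((n : ℝ) + 1) ^ 2 / 16 * (-(ind ((r : ℕ) + 1 = u ∧ (s : ℕ) + 1 = v) +
        ind ((r : ℕ) + 1 = v ∧ (s : ℕ) + 1 = u) +
        ind ((r : ℕ) + 1 = n + 1 - v ∧ (s : ℕ) + 1 = n + 1 - u) +
        ind ((r : ℕ) + 1 = n + 1 - u ∧ (s : ℕ) + 1 = n + 1 - v))) : ℝ) : ℂ) := by
    intro r s
    have t1 := triple_ind n ((u : ℤ) - v) (by omega) (by omega) r s
    have t2 := triple_ind n ((u : ℤ) + v) (by omega) (by omega) r s
    have p := prod_ind n u v hv huv hn r s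
    have s1 : (∑ a : Fin n, (cs n ((u : ℤ) - v) a : ℂ) * Sm n a r * Sm n a s) =
        ((∑ i : Fin n, cs n ((u : ℤ) - v) i * sn n i r * sn n i s : ℝ) : ℂ) := by
      push_cast; rfl
    have s2 : (∑ b : Fin n, (cs n ((u : ℤ) + v) b : ℂ) * Sm n r b * Sm n s b) =
        ((∑ i : Fin n, cs n ((u : ℤ) + v) i * sn n i r * sn n i s : ℝ) : ℂ) := by
      push_cast
      apply Finset.sum_congr rfl
      intro b _
      simp only [Sm]; rw [sn_symm n r b, sn_symm n s b]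
    rw [s1, s2, ← Complex.ofReal_mul, t1, t2, ← p]
    congr 1
    ring
  have e3 : ((∑ a : Fin n, ∑ b : Fin n, cs n ((u : ℤ) - v) a * cs n ((u : ℤ) + v) b * M n t a b : ℝ) : ℂ) =
      ((((n : ℂ) + 1) / 2)⁻¹) ^ 2 * ∑ r : Fin n, ∑ s : Fin n, ev n t ((r : ℤ) + 1) * ev n (-t) ((s : ℤ) + 1) *
        ((∑ a : Fin n, (cs n ((u : ℤ) - v) a : ℂ) * Sm n a r * Sm n a s) *
      (∑ b : Fin n, (cs n ((u : ℤ) + v) b : ℂ) * Sm n r b * Sm n s b)) := by
    rw [← swap (fun a => (cs n ((u : ℤ) - v) a : ℂ)) (fun b => (cs n ((u : ℤ) + v) b : ℂ)) (Sm n)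
      (fun r => ev n t ((r : ℤ) + 1)) (fun s => ev n (-t) ((s : ℤ) + 1))]
    rw [Complex.ofReal_sum, Finset.mul_sum]
    apply Finset.sum_congr rfl; intro a _
    rw [Complex.ofReal_sum, Finset.mul_sum]
    apply Finset.sum_congr rfl; intro b _
    rw [e1]
  rw [e3]
  simp_rw [e2]
  have e4 : ∀ r s : Fin n, ev n t ((r : ℤ) + 1) * ev n (-t) ((s : ℤ) + 1) *
      ((((n : ℝ) + 1) ^ 2 / 16 * (-(ind ((r : ℕ) + 1 = u ∧ (s : ℕ) + 1 = v) +
        ind ((r : ℕ) + 1 = v ∧ (s : ℕ) + 1 = u) +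
        ind ((r : ℕ) + 1 = n + 1 - v ∧ (s : ℕ) + 1 = n + 1 - u) +
        ind ((r : ℕ) + 1 = n + 1 - u ∧ (s : ℕ) + 1 = n + 1 - v))) : ℝ) : ℂ) =
      -(((n : ℂ) + 1) ^ 2 / 16) * (
        (ev n t ((r : ℤ) + 1) * ev n (-t) ((s : ℤ) + 1)) * (ind ((r : ℕ) + 1 = u ∧ (s : ℕ) + 1 = v) : ℂ) +
        (ev n t ((r : ℤ) + 1) * ev n (-t) ((s : ℤ) + 1)) * (ind ((r : ℕ) + 1 = v ∧ (s : ℕ) + 1 = u) : ℂ) +
        (ev n t ((r : ℤ) + 1) * ev n (-t) ((s : ℤ) + 1)) *
          (ind ((r : ℕ) + 1 = n + 1 - v ∧ (s : ℕ) + 1 = n + 1 - u) : ℂ) +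
        (ev n t ((r : ℤ) + 1) * ev n (-t) ((s : ℤ) + 1)) *
          (ind ((r : ℕ) + 1 = n + 1 - u ∧ (s : ℕ) + 1 = n + 1 - v) : ℂ)) := by
    intro r s; push_cast; ring
  simp_rw [e4]
  simp_rw [← Finset.mul_sum, Finset.sum_add_distrib]
  rw [sum_single (fun p q => ev n t p * ev n (-t) q) u v (by omega) (by omega) (by omega) (by omega),
    sum_single (fun p q => ev n t p * ev n (-t) q) v u (by omega) (by omega) (by omega) (by omega),
    sum_single (fun p q => ev n t p * ev n (-t) q) (n + 1 - v) (n + 1 - u) (by omega) (by omega) (by omega)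
      (by omega),
    sum_single (fun p q => ev n t p * ev n (-t) q) (n + 1 - u) (n + 1 - v) (by omega) (by omega) (by omega)
      (by omega)]
  have cu : ((n + 1 - u : ℕ) : ℤ) = (n : ℤ) + 1 - u := by omega
  have cv : ((n + 1 - v : ℕ) : ℤ) = (n : ℤ) + 1 - v := by omega
  rw [cu, cv]
  simp only [ev_mul, th_refl]
  have f1 : t * (-th n v - -th n u) = t * (th n u - th n v) := by ring
  have f2 : t * (-th n u - -th n v) = -(t * (th n u - th n v)) := by ring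
  have f3 : t * (th n v - th n u) = -(t * (th n u - th n v)) := by ring
  rw [f1, f2, f3]
  have g1 : ∀ x : ℝ, Complex.exp ((x : ℂ) * Complex.I) + Complex.exp (((-x : ℝ) : ℂ) * Complex.I) =
      2 * ((Real.cos x : ℝ) : ℂ) := by
    intro x
    rw [Complex.ofReal_cos, Complex.cos]
    push_cast
    rw [neg_mul]; ring
  have g2 := g1 (t * (th n u - th n v))
  have hcos : (th n u - th n v) * t = t * (th n u - th n v) := by ring
  rw [hcos]
  have : ((((n : ℂ) + 1) / 2)⁻¹) ^ 2 * (-(((n : ℂ) + 1) ^ 2 / 16)) = -(1/4) := by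
    field_simp; ring
  calc _ = ((((n : ℂ) + 1) / 2)⁻¹) ^ 2 * (-(((n : ℂ) + 1) ^ 2 / 16)) *
      (2 * (Complex.exp (((t * (th n u - th n v) : ℝ) : ℂ) * Complex.I) +
        Complex.exp (((-(t * (th n u - th n v)) : ℝ) : ℂ) * Complex.I))) := by ring
    _ = _ := by rw [this, g2]; push_cast; ring

/-! ### Coincidences of differences of eigenvalues -/

lemma cos_id_six (x : ℝ) : 2 * Real.cos (Real.pi / 2 - x) - 2 * Real.cos (Real.pi / 6 - x) =
    2 * Real.cos (Real.pi / 2) - 2 * Real.cos (Real.pi / 6 + x) := by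
  rw [Real.cos_pi_div_two_sub, Real.cos_sub, Real.cos_add, Real.cos_pi_div_two, Real.sin_pi_div_six]
  ring

lemma cos_id_five : Real.cos (Real.pi / 5) - Real.cos (Real.pi / 15) =
    Real.cos (Real.pi / 3) - Real.cos (4 * Real.pi / 15) := by
  have h1 : Real.cos (Real.pi / 15) - Real.cos (4 * Real.pi / 15) = Real.cos (2 * (Real.pi / 5)) := by
    have e1 : Real.pi / 15 = Real.pi / 6 - Real.pi / 10 := by ring
    have e2 : 4 * Real.pi / 15 = Real.pi / 6 + Real.pi / 10 := by ring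
    have e3 : 2 * (Real.pi / 5) = Real.pi / 2 - Real.pi / 10 := by ring
    rw [e1, e2, e3, Real.cos_sub, Real.cos_add, Real.cos_pi_div_two_sub, Real.sin_pi_div_six]; ring
  have h2 : Real.cos (Real.pi / 5) - Real.cos (2 * (Real.pi / 5)) = 1 / 2 := by
    rw [Real.cos_two_mul, Real.cos_pi_div_five]
    have : Real.sqrt 5 ^ 2 = 5 := Real.sq_sqrt (by norm_num)
    nlinarith
  rw [Real.cos_pi_div_three]
  linarith

lemma cos_id_seven : Real.cos (3 * Real.pi / 7) - Real.cos (Real.pi / 3) =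
    Real.cos (2 * Real.pi / 7) - Real.cos (Real.pi / 7) := by
  have hs : Real.sin (Real.pi / 7) ≠ 0 := by
    apply ne_of_gt
    apply Real.sin_pos_of_pos_of_lt_pi <;> have := Real.pi_pos <;> linarith
  have h : 2 * Real.sin (Real.pi / 7) * (Real.cos (Real.pi / 7) - Real.cos (2 * Real.pi / 7) +
      Real.cos (3 * Real.pi / 7)) = Real.sin (Real.pi / 7) := by
    have e1 : 2 * Real.sin (Real.pi / 7) * Real.cos (Real.pi / 7) = Real.sin (2 * Real.pi / 7) := by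
      rw [← Real.sin_two_mul]; congr 1; ring
    have e2 : 2 * Real.sin (Real.pi / 7) * Real.cos (2 * Real.pi / 7) =
        Real.sin (3 * Real.pi / 7) - Real.sin (Real.pi / 7) := by
      have a1 : 3 * Real.pi / 7 = 2 * Real.pi / 7 + Real.pi / 7 := by ring
      have a2 : Real.sin (Real.pi / 7) = Real.sin (2 * Real.pi / 7 - Real.pi / 7) := by congr 1; ring
      rw [a1, Real.sin_add]
      nth_rewrite 3 [a2]
      rw [Real.sin_sub]; ring
    have e3 : 2 * Real.sin (Real.pi / 7) * Real.cos (3 * Real.pi / 7) =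
        Real.sin (3 * Real.pi / 7) - Real.sin (2 * Real.pi / 7) := by
      have a1 : Real.sin (3 * Real.pi / 7) = Real.sin (3 * Real.pi / 7 + Real.pi / 7) := by
        rw [← Real.sin_pi_sub]; congr 1; ring
      have a2 : Real.sin (2 * Real.pi / 7) = Real.sin (3 * Real.pi / 7 - Real.pi / 7) := by congr 1; ring
      rw [a2, a1, Real.sin_add, Real.sin_sub]; ring
    linarith
  have h2 : Real.cos (Real.pi / 7) - Real.cos (2 * Real.pi / 7) + Real.cos (3 * Real.pi / 7) = 1 / 2 := by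
    have h3 : Real.sin (Real.pi / 7) * (2 * (Real.cos (Real.pi / 7) - Real.cos (2 * Real.pi / 7) +
      Real.cos (3 * Real.pi / 7)) - 1) = 0 := by linarith
    rcases mul_eq_zero.mp h3 with h4 | h4
    · exact absurd h4 hs
    · linarith
  rw [Real.cos_pi_div_three]; linarith

/-- Two equal differences of eigenvalues, one with an even and one with an odd difference of
indices. -/
lemma coincidence (n : ℕ) (h : (6 ∣ n + 1 ∧ n + 1 ≠ 6) ∨ 15 ∣ n + 1 ∨ 21 ∣ n + 1) :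
    ∃ u₁ v₁ u₂ v₂ : ℕ, (1 ≤ v₁ ∧ v₁ < u₁ ∧ u₁ + v₁ ≤ n ∧ Even (u₁ - v₁)) ∧
      (1 ≤ v₂ ∧ v₂ < u₂ ∧ u₂ + v₂ ≤ n ∧ ¬ Even (u₂ - v₂)) ∧
      th n u₁ - th n v₁ = th n u₂ - th n v₂ := by
  have hsix : (6 ∣ n + 1 ∧ n + 1 ≠ 6) → ∃ u₁ v₁ u₂ v₂ : ℕ,
      (1 ≤ v₁ ∧ v₁ < u₁ ∧ u₁ + v₁ ≤ n ∧ Even (u₁ - v₁)) ∧
      (1 ≤ v₂ ∧ v₂ < u₂ ∧ u₂ + v₂ ≤ n ∧ ¬ Even (u₂ - v₂)) ∧
      th n u₁ - th n v₁ = th n u₂ - th n v₂ := by
    rintro ⟨⟨q, hq⟩, h6⟩
    have hq2 : 2 ≤ q := by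
      by_contra hc
      have : q = 0 ∨ q = 1 := by omega
      rcases this with rfl | rfl <;> omega
    refine ⟨3 * q - 1, q - 1, 3 * q, q + 1, ⟨by omega, by omega, by omega, ⟨q, by omega⟩⟩,
      ⟨by omega, by omega, by omega, ?_⟩, ?_⟩
    · rintro ⟨m, hm⟩; omega
    · have hN : ((n : ℝ) + 1) = 6 * q := by exact_mod_cast hq
      have hq0 : (q : ℝ) ≠ 0 := by positivity
      have c1 : ((3 * q - 1 : ℕ) : ℤ) = 3 * q - 1 := by omega
      have c2 : ((q - 1 : ℕ) : ℤ) = q - 1 := by omega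
      unfold th
      rw [hN, c1, c2]
      have a1 : Real.pi * ((3 * (q : ℤ) - 1 : ℤ) : ℝ) / (6 * q) = Real.pi / 2 - Real.pi / (6 * q) := by
        push_cast; field_simp; ring
      have a2 : Real.pi * (((q : ℤ) - 1 : ℤ) : ℝ) / (6 * q) = Real.pi / 6 - Real.pi / (6 * q) := by
        push_cast; field_simp
      have a3 : Real.pi * (((3 * q : ℕ) : ℤ) : ℝ) / (6 * q) = Real.pi / 2 := by
        push_cast; field_simp; ring
      have a4 : Real.pi * (((q + 1 : ℕ) : ℤ) : ℝ) / (6 * q) = Real.pi / 6 + Real.pi / (6 * q) := by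
        push_cast; field_simp
      rw [a1, a2, a3, a4]
      exact cos_id_six _
  rcases h with h | ⟨q, hq⟩ | ⟨q, hq⟩
  · exact hsix h
  · rcases Nat.even_or_odd q with ⟨m, hm⟩ | ⟨m, hm⟩
    · exact hsix ⟨⟨5 * m, by omega⟩, by omega⟩
    · refine ⟨3 * q, q, 5 * q, 4 * q, ⟨by omega, by omega, by omega, ⟨q, by omega⟩⟩,
        ⟨by omega, by omega, by omega, ?_⟩, ?_⟩
      · rintro ⟨k, hk⟩; omega
      · have hN : ((n : ℝ) + 1) = 15 * q := by exact_mod_cast hq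
        have hq0 : (q : ℝ) ≠ 0 := by
          have : q ≠ 0 := by omega
          exact_mod_cast this
        unfold th
        rw [hN]
        have a1 : Real.pi * (((3 * q : ℕ) : ℤ) : ℝ) / (15 * q) = Real.pi / 5 := by
          push_cast; field_simp; ring
        have a2 : Real.pi * ((q : ℤ) : ℝ) / (15 * q) = Real.pi / 15 := by
          push_cast; field_simp
        have a3 : Real.pi * (((5 * q : ℕ) : ℤ) : ℝ) / (15 * q) = Real.pi / 3 := by
          push_cast; field_simp; ring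
        have a4 : Real.pi * (((4 * q : ℕ) : ℤ) : ℝ) / (15 * q) = 4 * Real.pi / 15 := by
          push_cast; field_simp
        rw [a1, a2, a3, a4]
        linarith [cos_id_five]
  · rcases Nat.even_or_odd q with ⟨m, hm⟩ | ⟨m, hm⟩
    · exact hsix ⟨⟨7 * m, by omega⟩, by omega⟩
    · refine ⟨9 * q, 7 * q, 6 * q, 3 * q, ⟨by omega, by omega, by omega, ⟨q, by omega⟩⟩,
        ⟨by omega, by omega, by omega, ?_⟩, ?_⟩
      · rintro ⟨k, hk⟩; omega
      · have hN : ((n : ℝ) + 1) = 21 * q := by exact_mod_cast hq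
        have hq0 : (q : ℝ) ≠ 0 := by
          have : q ≠ 0 := by omega
          exact_mod_cast this
        unfold th
        rw [hN]
        have a1 : Real.pi * (((9 * q : ℕ) : ℤ) : ℝ) / (21 * q) = 3 * Real.pi / 7 := by
          push_cast; field_simp; ring
        have a2 : Real.pi * (((7 * q : ℕ) : ℤ) : ℝ) / (21 * q) = Real.pi / 3 := by
          push_cast; field_simp; ring
        have a3 : Real.pi * (((6 * q : ℕ) : ℤ) : ℝ) / (21 * q) = 2 * Real.pi / 7 := by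
          push_cast; field_simp; ring
        have a4 : Real.pi * (((3 * q : ℕ) : ℤ) : ℝ) / (21 * q) = Real.pi / 7 := by
          push_cast; field_simp; ring
        rw [a1, a2, a3, a4]
        linarith [cos_id_seven]

/-! ### Rank one -/

lemma entries_of_rank_one {n : ℕ} (hn : 0 < n) (X : Matrix (Fin n) (Fin n) ℝ) (hX : X.rank = 1)
    (hs : ∀ a b, X a b = X b a) (hrow : ∀ a, ∑ b, X a b = 1) (a b : Fin n) : X a b = 1 / n := by
  have h1 : X.mulVec (fun _ => (1 : ℝ)) = fun _ => 1 := by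
    funext i
    simp only [Matrix.mulVec, dotProduct, mul_one]
    exact hrow i
  have hmem : (fun _ => (1 : ℝ)) ∈ LinearMap.range X.mulVecLin := ⟨fun _ => 1, by
    rw [Matrix.mulVecLin_apply]; exact h1⟩
  have hne : (⟨fun _ => (1 : ℝ), hmem⟩ : LinearMap.range X.mulVecLin) ≠ 0 := by
    intro h
    have := congrArg Subtype.val h
    have := congrFun this ⟨0, hn⟩
    simp at this
  have hf : Module.finrank ℝ (LinearMap.range X.mulVecLin) = 1 := hX
  have hall := (finrank_eq_one_iff_of_nonzero' _ hne).mp hf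
  have hcol : ∀ j i i', X i j = X i' j := by
    intro j i i'
    have hm : X.mulVec (Pi.single j 1) ∈ LinearMap.range X.mulVecLin := ⟨Pi.single j 1, by
      rw [Matrix.mulVecLin_apply]⟩
    obtain ⟨c, hc⟩ := hall ⟨_, hm⟩
    have hc' := congrArg Subtype.val hc
    have g : ∀ i, X i j = c := by
      intro i
      have := congrFun hc' i
      simp at this
      exact this.symm
    rw [g i, g i']
  have hconst : ∀ i j, X i j = X a b := by
    intro i j
    rw [hcol j i b, hs b j, hcol b j a]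
  have hr := hrow a
  simp only [hconst a] at hr
  rw [Finset.sum_const, Finset.card_univ, Fintype.card_fin, nsmul_eq_mul] at hr
  have hn' : (n : ℝ) ≠ 0 := by positivity
  field_simp; linarith

lemma cs_sum_small (n : ℕ) (k : ℤ) (h0 : 0 < k) (h1 : k ≤ n) : ∑ i : Fin n, cs n k i =
    - (1 + (-1 : ℝ) ^ k) / 2 := by
  rw [cs_sum, if_neg]
  · ring
  · rw [dvd0 (by omega) (by omega)]; omega

lemma M_integrable (n : ℕ) (μ : Measure ℝ) [IsProbabilityMeasure μ] (a b : Fin n) :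
    Integrable (fun s => M n s a b) μ := by
  apply Integrable.of_bound (M_continuous n a b).aestronglyMeasurable 1
  filter_upwards with s
  rw [Real.norm_eq_abs, abs_of_nonneg (M_nonneg n s a b)]
  exact M_le_one n s a b

lemma cos_avg (n : ℕ) (μ : Measure ℝ) [IsProbabilityMeasure μ]
    (hM : ∀ a b : Fin n, ∫ s, M n s a b ∂μ = 1 / n) (u v : ℕ) (hv : 1 ≤ v) (huv : v < u)
    (huvn : u + v ≤ n) : ∫ s, Real.cos ((th n u - th n v) * s) ∂μ =
      - (1 / n) * ((1 + (-1 : ℝ) ^ ((u : ℤ) - v)) / 2) ^ 2 := by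
  have h1 : ∫ s, (∑ a : Fin n, ∑ b : Fin n, cs n ((u : ℤ) - v) a * cs n ((u : ℤ) + v) b * M n s a b) ∂μ =
      ∑ a : Fin n, ∑ b : Fin n, cs n ((u : ℤ) - v) a * cs n ((u : ℤ) + v) b * (1 / n) := by
    rw [integral_finsetSum]
    · apply Finset.sum_congr rfl; intro a _
      rw [integral_finsetSum]
      · apply Finset.sum_congr rfl; intro b _
        rw [integral_const_mul, hM]
      · intro b _; exact (M_integrable n μ a b).const_mul _
    · intro a _
      apply integrable_finsetSum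
      intro b _; exact (M_integrable n μ a b).const_mul _
  simp_rw [key n u v hv huv huvn] at h1
  rw [integral_neg] at h1
  have h2 : ∑ a : Fin n, ∑ b : Fin n, cs n ((u : ℤ) - v) a * cs n ((u : ℤ) + v) b * (1 / n) =
      (1 / n) * ((∑ a : Fin n, cs n ((u : ℤ) - v) a) * (∑ b : Fin n, cs n ((u : ℤ) + v) b)) := by
    rw [Finset.sum_mul_sum, Finset.mul_sum]
    apply Finset.sum_congr rfl; intro a _
    rw [Finset.mul_sum]
    apply Finset.sum_congr rfl; intro b _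
    ring
  rw [h2, cs_sum_small n _ (by omega) (by omega), cs_sum_small n _ (by omega) (by omega),
    neg_one_zpow_congr (k := (u : ℤ) + v) (l := (u : ℤ) - v) ⟨v, by ring⟩] at h1
  linarith

theorem no_rank_one (n : ℕ) (h : (6 ∣ n + 1 ∧ n + 1 ≠ 6) ∨ 15 ∣ n + 1 ∨ 21 ∣ n + 1)
    (μ : Measure ℝ) [IsProbabilityMeasure μ] :
    Matrix.rank (fun a b : Fin n => ∫ s, M n s a b ∂μ : Matrix (Fin n) (Fin n) ℝ) ≠ 1 := by
  intro hr
  obtain ⟨u₁, v₁, u₂, v₂, ⟨a1, a2, a3, a4⟩, ⟨b1, b2, b3, b4⟩, hth⟩ := coincidence n h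
  have hn : 0 < n := by omega
  have hM : ∀ a b : Fin n, ∫ s, M n s a b ∂μ = 1 / n := by
    intro a b
    apply entries_of_rank_one hn _ hr
    · intro a b
      show ∫ s, M n s a b ∂μ = ∫ s, M n s b a ∂μ
      simp_rw [M_symm n _ a b]
    · intro a
      show ∑ b, ∫ s, M n s a b ∂μ = 1
      rw [← integral_finsetSum _ (fun b _ => M_integrable n μ a b)]
      simp_rw [M_row]
      simp
  have e1 := cos_avg n μ hM u₁ v₁ a1 a2 a3
  have e2 := cos_avg n μ hM u₂ v₂ b1 b2 b3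
  rw [hth, e2] at e1
  have p1 : (-1 : ℝ) ^ ((u₁ : ℤ) - v₁) = 1 := by
    obtain ⟨m, hm⟩ := a4
    have : (u₁ : ℤ) - v₁ = 2 * m := by omega
    rw [this, _root_.zpow_mul]; simp
  have p2 : (-1 : ℝ) ^ ((u₂ : ℤ) - v₂) = -1 := by
    obtain ⟨m, hm⟩ := Nat.not_even_iff_odd.mp b4
    have : (u₂ : ℤ) - v₂ = 2 * m + 1 := by omega
    rw [this, zpow_add₀ (by norm_num), _root_.zpow_mul]; simp
  rw [p1, p2] at e1
  have hn' : (0 : ℝ) < n := by exact_mod_cast hn
  have : (0 : ℝ) < 1 / n := by positivity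
  norm_num at e1
  omega

/-- The averaged mixing matrix of `P_n` for a random variable with density `f`. -/
noncomputable def Mhat (n : ℕ) (f : ℝ → ℝ) : Matrix (Fin n) (Fin n) ℝ :=
  fun a b => ∫ s, f s * M n s a b

/-- If `n + 1` is a multiple of 6 larger than 6, or a multiple of 15 or of 21, then no probability
density makes the averaged mixing matrix of the path `P_n` a matrix of rank one (more generally
this holds for every Borel probability measure on the line). In particular this is so for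
`n = 11`. -/
theorem result :
    (∀ n : ℕ, ((6 ∣ n + 1 ∧ n + 1 ≠ 6) ∨ 15 ∣ n + 1 ∨ 21 ∣ n + 1) →
      (∀ f : ℝ → ℝ, (∀ x, 0 ≤ f x) → ∫ x, f x = 1 → (Mhat n f).rank ≠ 1) ∧
      (∀ μ : Measure ℝ, IsProbabilityMeasure μ →
        Matrix.rank (fun a b : Fin n => ∫ s, M n s a b ∂μ : Matrix (Fin n) (Fin n) ℝ) ≠ 1)) ∧
    ∀ f : ℝ → ℝ, (∀ x, 0 ≤ f x) → ∫ x, f x = 1 → (Mhat 11 f).rank ≠ 1 := by
  have main : ∀ n : ℕ, ((6 ∣ n + 1 ∧ n + 1 ≠ 6) ∨ 15 ∣ n + 1 ∨ 21 ∣ n + 1) →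
      ∀ f : ℝ → ℝ, (∀ x, 0 ≤ f x) → ∫ x, f x = 1 → (Mhat n f).rank ≠ 1 := by
    intro n hn f hf hf1
    have hint : Integrable f := by
      by_contra hc
      rw [integral_undef hc] at hf1
      norm_num at hf1
    set μ : Measure ℝ := volume.withDensity (fun x => ENNReal.ofReal (f x)) with hμ
    have hprob : IsProbabilityMeasure μ := by
      constructor
      rw [hμ, withDensity_apply _ MeasurableSet.univ, Measure.restrict_univ,
        ← ofReal_integral_eq_lintegral_ofReal hint (Filter.Eventually.of_forall hf), hf1]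
      simp
    have e : Mhat n f = fun a b : Fin n => ∫ s, M n s a b ∂μ := by
      funext a b
      rw [hμ, integral_withDensity_eq_integral_toReal_smul₀ hint.1.aemeasurable.ennreal_ofReal
        (Filter.Eventually.of_forall fun x => ENNReal.ofReal_lt_top)]
      unfold Mhat
      apply integral_congr_ae
      filter_upwards with s
      rw [ENNReal.toReal_ofReal (hf s), smul_eq_mul]
    rw [e]
    exact no_rank_one n hn μ
  exact ⟨fun n hn => ⟨main n hn, fun μ hμ => no_rank_one n hn μ⟩,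
    main 11 (Or.inl ⟨⟨2, rfl⟩, by norm_num⟩)⟩

end Pool.Agent.Results.MP_261efc_co.NoRankOne
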